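import Mathlib

/-! The total degree filtration on `K[X][Y]` and the partial derivative in the inner variable. -/

set_option autoImplicit false

namespace Pool.Agent.Lib.Common.Stepanov

open Polynomial

variable {K : Type*} [Field K]

/-- Polynomials in two variables of total degree at most `n`. -/
def Fil (K : Type*) [Field K] (n : ℕ) : Submodule K K[X][X] where
  carrier := {g | ∀ a b, n < a + b → (g.coeff b).coeff a = 0}
  add_mem' := fun {f g} hf hg a b h => by simp [hf a b h, hg a b h]
  zero_mem' := fun a b _ => by simp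
  smul_mem' := fun c g hg a b h => by simp [hg a b h]

theorem mem_Fil {n : ℕ} {g : K[X][X]} :
    g ∈ Fil K n ↔ ∀ a b, n < a + b → (g.coeff b).coeff a = 0 := Iff.rfl

/-- The substitution recording the total degree in the outer variable. -/
noncomputable def psi (K : Type*) [Field K] : K[X][X] →+* K[X][X] :=
  eval₂RingHom (mapRingHom C) (C X * X)

theorem psi_coeff (g : K[X][X]) (j b : ℕ) :
    ((psi K g).coeff j).coeff b = if b ≤ j then (g.coeff b).coeff (j - b) else 0 := by
  induction g using Polynomial.induction_on' with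
  | add p q hp hq => simp only [map_add, coeff_add, hp, hq]; split_ifs <;> simp
  | monomial n c =>
    have : psi K (monomial n c) = C (X ^ n) * (c.map C * X ^ n) := by
      simp only [psi, coe_eval₂RingHom, eval₂_monomial, coe_mapRingHom, mul_pow, map_pow]; ring
    rw [this, coeff_C_mul, coeff_mul_X_pow', coeff_monomial]
    by_cases h : n = b
    · subst h
      by_cases h1 : n ≤ j
      · rw [if_pos h1, if_pos h1, if_pos rfl, coeff_map, mul_comm, coeff_C_mul, coeff_X_pow_self,
          mul_one]
      · rw [if_neg h1, if_neg h1, mul_zero, coeff_zero]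
    · rw [if_neg h, coeff_zero, ite_self]
      split_ifs
      · rw [coeff_map, mul_comm, coeff_C_mul, coeff_X_pow, if_neg (Ne.symm h), mul_zero]
      · rw [mul_zero, coeff_zero]

theorem mem_Fil_iff {n : ℕ} {g : K[X][X]} : g ∈ Fil K n ↔ (psi K g).natDegree ≤ n := by
  rw [natDegree_le_iff_coeff_eq_zero, mem_Fil]
  constructor
  · intro h j hj
    ext b
    rw [psi_coeff]
    split_ifs with hb
    · exact h _ _ (by omega)
    · rfl
  · intro h a b hab
    have := psi_coeff g (a + b) b
    rw [h _ hab] at this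
    simpa using this.symm

theorem Fil_mono {m n : ℕ} {g : K[X][X]} (hg : g ∈ Fil K m) (h : m ≤ n) : g ∈ Fil K n :=
  fun a b hab => hg a b (by omega)

theorem Fil_mul {m n : ℕ} {f g : K[X][X]} (hf : f ∈ Fil K m) (hg : g ∈ Fil K n) :
    f * g ∈ Fil K (m + n) := by
  rw [mem_Fil_iff] at *
  rw [map_mul]
  exact natDegree_mul_le.trans (add_le_add hf hg)

theorem Fil_pow {m : ℕ} {f : K[X][X]} (hf : f ∈ Fil K m) (k : ℕ) : f ^ k ∈ Fil K (k * m) := by
  rw [mem_Fil_iff] at *
  rw [map_pow]
  exact natDegree_pow_le.trans (Nat.mul_le_mul_left _ hf)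

theorem Fil_C {n : ℕ} {h : K[X]} (hh : h.natDegree ≤ n) : (C h : K[X][X]) ∈ Fil K n := by
  intro a b hab
  rw [coeff_C]
  split_ifs with hb
  · exact coeff_eq_zero_of_natDegree_lt (by omega)
  · rfl

theorem Fil_map {n : ℕ} {h : K[X]} (hh : h.natDegree ≤ n) : (h.map C : K[X][X]) ∈ Fil K n := by
  intro a b hab
  rw [coeff_map, coeff_C]
  split_ifs with hb
  · exact coeff_eq_zero_of_natDegree_lt (by omega)
  · rfl

theorem Fil_X : (X : K[X][X]) ∈ Fil K 1 := by
  simpa using Fil_map (K := K) (h := X) (n := 1) (by simp)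

theorem Fil_CX : (C X : K[X][X]) ∈ Fil K 1 := Fil_C (by simp)

theorem Fil_one : (1 : K[X][X]) ∈ Fil K 0 := by
  simpa using Fil_C (K := K) (h := 1) (n := 0) (by simp)

theorem Fil_coeff {n : ℕ} {g : K[X][X]} (hg : g ∈ Fil K n) (b : ℕ) :
    (g.coeff b).natDegree ≤ n - b :=
  natDegree_le_iff_coeff_eq_zero.2 fun a ha => hg a b (by omega)

theorem Fil_coeff_zero {n : ℕ} {g : K[X][X]} (hg : g ∈ Fil K n) {b : ℕ} (hb : n < b) :
    g.coeff b = 0 := by
  ext a; exact hg a b (by omega)

theorem Fil_derivative {n : ℕ} {g : K[X][X]} (hg : g ∈ Fil K n) :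
    derivative g ∈ Fil K (n - 1) := by
  intro a b hab
  rw [coeff_derivative, ← Nat.cast_succ, ← C_eq_natCast, coeff_mul_C, hg a (b + 1) (by omega),
    zero_mul]

/-- The partial derivative in the inner variable. -/
noncomputable def dX (K : Type*) [Field K] : Derivation K K[X][X] K[X][X] :=
  PolynomialModule.equivPolynomialSelf.compDer (derivative' (R := K)).mapCoeffs

theorem dX_coeff (g : K[X][X]) (b : ℕ) : (dX K g).coeff b = derivative (g.coeff b) := rfl

@[simp] theorem dX_C (h : K[X]) : dX K (C h) = C (derivative h) := by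
  ext b; rw [dX_coeff, coeff_C, coeff_C]; split_ifs <;> simp

@[simp] theorem dX_map (h : K[X]) : dX K (h.map C) = 0 := by
  ext b; rw [dX_coeff, coeff_map]; simp

@[simp] theorem dX_X : dX K X = 0 := by simpa using dX_map (K := K) X

theorem Fil_dX {n : ℕ} {g : K[X][X]} (hg : g ∈ Fil K n) : dX K g ∈ Fil K (n - 1) := by
  intro a b hab
  rw [dX_coeff, coeff_derivative, hg (a + 1) b (by omega), zero_mul]

/-- The partial derivative in the outer variable. -/
noncomputable def dY (K : Type*) [Field K] : Derivation K K[X][X] K[X][X] :=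
  (derivative' (R := K[X])).restrictScalars K

theorem dY_apply (g : K[X][X]) : dY K g = derivative g := rfl

theorem Fil_of_mul {f g : K[X][X]} (hf : f.Monic) (hg : g.Monic)
    (h : f * g ∈ Fil K (f * g).natDegree) : f ∈ Fil K f.natDegree := by
  have key : ∀ u : K[X][X], u.Monic → psi K u ≠ 0 ∧ u.natDegree ≤ (psi K u).natDegree := by
    intro u hu
    have : (psi K u).coeff u.natDegree ≠ 0 := fun h0 => by
      have := psi_coeff u u.natDegree u.natDegree
      rw [h0, hu.coeff_natDegree] at this
      simp at this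
    exact ⟨fun h0 => this (by simp [h0]), le_natDegree_of_ne_zero this⟩
  rw [mem_Fil_iff] at *
  rw [map_mul, natDegree_mul (key f hf).1 (key g hg).1, hf.natDegree_mul hg] at h
  have := (key g hg).2
  omega

theorem Fil_modByMonic {B : K[X][X]} (hB : B.Monic) (hF : B ∈ Fil K B.natDegree) {n : ℕ}
    {g : K[X][X]} (hg : g ∈ Fil K n) : g %ₘ B ∈ Fil K n := by
  induction hd : g.natDegree using Nat.strong_induction_on generalizing g with
  | _ d ih =>
    rcases lt_or_ge g.degree B.degree with h | h
    · rwa [(modByMonic_eq_self_iff hB).2 h]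
    by_cases h0 : g = 0
    · simp [h0]
    have hle : B.natDegree ≤ d := hd ▸ natDegree_le_natDegree h
    have hdn : d ≤ n := by
      by_contra hc
      exact h0 (leadingCoeff_eq_zero.1 (Fil_coeff_zero hg (by omega)))
    set q : K[X][X] := C g.leadingCoeff * X ^ (d - B.natDegree) with hq
    have hqF : q * B ∈ Fil K n := by
      have h1 : (C g.leadingCoeff : K[X][X]) ∈ Fil K (n - d) := Fil_C (hd ▸ Fil_coeff hg _)
      exact Fil_mono (Fil_mul (Fil_mul h1 (Fil_pow Fil_X _)) hF) (by omega)
    have he : g %ₘ B = (g - q * B) %ₘ B :=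
      modByMonic_eq_of_dvd_sub hB (by simp)
    rw [he]
    by_cases h1 : g - q * B = 0
    · simp [h1]
    refine ih _ ?_ (Submodule.sub_mem _ hg hqF) rfl
    have hl : g.leadingCoeff ≠ 0 := leadingCoeff_ne_zero.2 h0
    have hdeg : (q * B).degree = g.degree := by
      rw [hB.degree_mul, hq, degree_C_mul_X_pow _ hl, degree_eq_natDegree hB.ne_zero,
        degree_eq_natDegree h0, hd]
      norm_cast; omega
    have := degree_sub_lt_left hdeg.symm h0 (by
      rw [leadingCoeff_mul, hB.leadingCoeff, hq, leadingCoeff_C_mul_X_pow, mul_one])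
    rw [← hd]
    exact natDegree_lt_natDegree h1 this

end Pool.Agent.Lib.Common.Stepanov
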