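import Pool.Agent.Lib.Common.Stepanov.Van
import Pool.Agent.Lib.Common.Stepanov.Fil

/-! The coordinate ring of a plane curve monic in the outer variable: filtration, derivation,
degree of the norm, and counting zeros. -/

set_option autoImplicit false

namespace Pool.Agent.Lib.Common.Stepanov

open Polynomial

variable {K : Type*} [Field K]

/-- An irreducible plane curve whose equation is monic in `Y` of degree its total degree. -/
structure IsCurve (B : K[X][X]) : Prop where
  monic : B.Monic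
  fil : B ∈ Fil K B.natDegree
  irr : Irreducible B

theorem IsCurve.isDomain {B : K[X][X]} (hB : IsCurve B) : IsDomain (AdjoinRoot B) :=
  AdjoinRoot.isDomain_of_prime hB.irr.prime

theorem IsCurve.pos {B : K[X][X]} (hB : IsCurve B) : 0 < B.natDegree := by
  rcases Nat.eq_zero_or_pos B.natDegree with h | h
  · exact absurd (hB.monic.natDegree_eq_zero.1 h ▸ isUnit_one) hB.irr.not_isUnit
  · exact h

/-- The quotient map as a `K`-algebra map. -/
noncomputable def mkK (B : K[X][X]) : K[X][X] →ₐ[K] AdjoinRoot B :=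
  (AdjoinRoot.mkₐ B).restrictScalars K

theorem mkK_apply (B g : K[X][X]) : mkK B g = AdjoinRoot.mk B g := rfl

theorem mkK_eq_zero {B g : K[X][X]} : mkK B g = 0 ↔ B ∣ g := AdjoinRoot.mk_eq_zero

theorem mkK_C (B : K[X][X]) (h : K[X]) : mkK B (C h) = algebraMap K[X] (AdjoinRoot B) h := rfl

theorem mkK_ne_zero {B g : K[X][X]} (hB : B.Monic) (hg : g ≠ 0) (h : g.natDegree < B.natDegree) :
    mkK B g ≠ 0 := fun h0 => hB.not_dvd_of_natDegree_lt hg h (mkK_eq_zero.1 h0)

/-- The filtration of the coordinate ring. -/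
noncomputable def W (B : K[X][X]) (n : ℕ) : Submodule K (AdjoinRoot B) :=
  (Fil K n).map (mkK B).toLinearMap

theorem mem_W {B g : K[X][X]} {n : ℕ} (hg : g ∈ Fil K n) : mkK B g ∈ W B n := ⟨g, hg, rfl⟩

theorem W_mono {B : K[X][X]} {m n : ℕ} {u : AdjoinRoot B} (hu : u ∈ W B m) (h : m ≤ n) :
    u ∈ W B n := by
  obtain ⟨g, hg, rfl⟩ := hu
  exact mem_W (Fil_mono hg h)

theorem W_mul {B : K[X][X]} {m n : ℕ} {u v : AdjoinRoot B} (hu : u ∈ W B m) (hv : v ∈ W B n) :
    u * v ∈ W B (m + n) := by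
  obtain ⟨f, hf, rfl⟩ := hu
  obtain ⟨g, hg, rfl⟩ := hv
  exact ⟨f * g, Fil_mul hf hg, map_mul (mkK B) f g⟩

theorem W_pow {B : K[X][X]} {m : ℕ} {u : AdjoinRoot B} (hu : u ∈ W B m) (k : ℕ) :
    u ^ k ∈ W B (k * m) := by
  obtain ⟨f, hf, rfl⟩ := hu
  exact ⟨f ^ k, Fil_pow hf k, map_pow (mkK B) f k⟩

theorem W_one (B : K[X][X]) (n : ℕ) : (1 : AdjoinRoot B) ∈ W B n :=
  ⟨1, Fil_mono Fil_one (Nat.zero_le _), map_one (mkK B)⟩

theorem W_natCast (B : K[X][X]) (c n : ℕ) : (c : AdjoinRoot B) ∈ W B n := by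
  simpa using nsmul_mem (W_one B n) c

/-- The Hamiltonian derivation of `B`. -/
noncomputable def ham (B : K[X][X]) : Derivation K K[X][X] K[X][X] :=
  derivative B • dX K - dX K B • dY K

theorem ham_apply (B g : K[X][X]) :
    ham B g = derivative B * dX K g - dX K B * derivative g := rfl

theorem ham_ker (B g : K[X][X]) (hg : mkK B g = 0) : mkK B (ham B g) = 0 := by
  obtain ⟨q, rfl⟩ := mkK_eq_zero.1 hg
  have : ham B B = 0 := by rw [ham_apply]; ring
  rw [mkK_eq_zero, Derivation.leibniz, this]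
  simp

/-- The derivation induced on the coordinate ring. -/
noncomputable def th (B : K[X][X]) : Derivation K (AdjoinRoot B) (AdjoinRoot B) :=
  Derivation.liftOfSurjective (f := mkK B) AdjoinRoot.mk_surjective (d := ham B) (ham_ker B)

theorem th_mk (B g : K[X][X]) : th B (mkK B g) = mkK B (ham B g) :=
  Derivation.liftOfSurjective_apply _ (ham_ker B) g

theorem th_x (B : K[X][X]) : th B (mkK B (C X)) = mkK B (derivative B) := by
  rw [th_mk, ham_apply]; simp

theorem th_y (B : K[X][X]) : th B (mkK B X) = -mkK B (dX K B) := by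
  rw [th_mk, ham_apply]; simp

theorem W_th {B : K[X][X]} (hB : IsCurve B) {n : ℕ} {u : AdjoinRoot B} (hu : u ∈ W B n) :
    th B u ∈ W B (n + B.natDegree) := by
  obtain ⟨g, hg, rfl⟩ := hu
  change th B (mkK B g) ∈ _
  rw [th_mk, ham_apply]
  exact mem_W (Submodule.sub_mem _
    (Fil_mono (Fil_mul (Fil_derivative hB.fil) (Fil_dX hg)) (by omega))
    (Fil_mono (Fil_mul (Fil_dX hB.fil) (Fil_derivative hg)) (by omega)))

theorem W_it {B : K[X][X]} (hB : IsCurve B) {n : ℕ} {u : AdjoinRoot B} (hu : u ∈ W B n) (i : ℕ) :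
    it (th B) i u ∈ W B (n + i * B.natDegree) := by
  induction i with
  | zero => simpa using hu
  | succ i ih => rw [it_succ]; exact W_mono (W_th hB ih) (by ring_nf; omega)

theorem W_coord {B : K[X][X]} (hB : IsCurve B) {n : ℕ} {u : AdjoinRoot B} (hu : u ∈ W B n) :
    AdjoinRoot.modByMonicHom hB.monic u ∈ Fil K n := by
  obtain ⟨g, hg, rfl⟩ := hu
  exact Fil_modByMonic hB.monic hB.fil hg

/-- The degree of the norm down to `K[X]`. -/
noncomputable def ell (B : K[X][X]) (u : AdjoinRoot B) : ℕ := (Algebra.norm K[X] u).natDegree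

theorem ell_mul {B : K[X][X]} (hB : IsCurve B) {u v : AdjoinRoot B} (hu : u ≠ 0) (hv : v ≠ 0) :
    ell B (u * v) = ell B u + ell B v := by
  have := hB.isDomain
  let b := (AdjoinRoot.powerBasis' hB.monic).basis
  rw [ell, map_mul, natDegree_mul ((Algebra.norm_ne_zero_iff_of_basis b).2 hu)
    ((Algebra.norm_ne_zero_iff_of_basis b).2 hv)]
  rfl

theorem ell_C {B : K[X][X]} (hB : IsCurve B) (h : K[X]) :
    ell B (mkK B (C h)) = B.natDegree * h.natDegree := by
  rw [ell, mkK_C, Algebra.norm_algebraMap_of_basis (AdjoinRoot.powerBasisAux' hB.monic),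
    natDegree_pow, Fintype.card_fin]

theorem ell_le_of_dvd {B : K[X][X]} (hB : IsCurve B) {u v : AdjoinRoot B} (hv : v ≠ 0)
    (h : u ∣ v) : ell B u ≤ ell B v := by
  obtain ⟨w, rfl⟩ := h
  rw [ell_mul hB (left_ne_zero_of_mul hv) (right_ne_zero_of_mul hv)]
  omega

theorem ell_le {B : K[X][X]} (hB : IsCurve B) {T : ℕ} {u : AdjoinRoot B} (hu : u ∈ W B T) :
    ell B u ≤ B.natDegree * T := by
  classical
  let pb := AdjoinRoot.powerBasis' hB.monic
  have hent : ∀ i j : Fin B.natDegree,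
      Algebra.leftMulMatrix (AdjoinRoot.powerBasisAux' hB.monic) u i j = 0 ∨
      (Algebra.leftMulMatrix (AdjoinRoot.powerBasisAux' hB.monic) u i j).natDegree + i ≤ T + j := by
    intro i j
    have h1 : AdjoinRoot.powerBasisAux' hB.monic j ∈ W B j := by
      have : AdjoinRoot.powerBasisAux' hB.monic j = mkK B X ^ (j : ℕ) := pb.basis_eq_pow j
      simpa [this] using W_pow (mem_W (B := B) Fil_X) j
    have h2 := W_coord hB (W_mul hu h1)
    rw [Algebra.leftMulMatrix_eq_repr_mul, AdjoinRoot.powerBasisAux'_repr_apply_to_fun]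
    rcases lt_or_ge (T + j) i with h | h
    · exact Or.inl (Fil_coeff_zero h2 h)
    · have := Fil_coeff h2 i
      exact Or.inr (by omega)
  rw [ell, Algebra.norm_eq_matrix_det (AdjoinRoot.powerBasisAux' hB.monic), Matrix.det_apply]
  refine natDegree_sum_le_of_forall_le _ _ fun σ _ => (natDegree_smul_le _ _).trans ?_
  by_cases h0 : ∃ j, Algebra.leftMulMatrix (AdjoinRoot.powerBasisAux' hB.monic) u (σ j) j = 0
  · obtain ⟨j, hj⟩ := h0
    rw [Finset.prod_eq_zero (f := fun i =>
      Algebra.leftMulMatrix (AdjoinRoot.powerBasisAux' hB.monic) u (σ i) i) (Finset.mem_univ j) hj]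
    simp
  · push Not at h0
    have h1 := Finset.sum_le_sum fun j (_ : j ∈ Finset.univ) => (hent (σ j) j).resolve_left (h0 j)
    rw [Finset.sum_add_distrib, Finset.sum_add_distrib,
      Equiv.sum_comp σ (fun j => (j : ℕ))] at h1
    refine (natDegree_prod_le _ _).trans ?_
    simpa using h1

theorem finite_quot {B : K[X][X]} (hB : IsCurve B) {u : AdjoinRoot B} (hu : u ≠ 0) :
    Module.Finite K (AdjoinRoot B ⧸ Ideal.span {u}) := by
  have := hB.isDomain
  exact Module.Finite.equiv (Ideal.quotientEquivDirectSum K (AdjoinRoot.powerBasisAux' hB.monic)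
    (Ideal.span_singleton_eq_bot.not.2 hu)).symm

theorem finrank_quot {B : K[X][X]} (hB : IsCurve B) {u : AdjoinRoot B} (hu : u ≠ 0) :
    Module.finrank K (AdjoinRoot B ⧸ Ideal.span {u}) = ell B u := by
  have := hB.isDomain
  exact finrank_quotient_span_eq_natDegree_norm (AdjoinRoot.powerBasisAux' hB.monic) hu

/-- The `K`-points of the curve. -/
abbrev Pts (B : K[X][X]) : Type _ := {q : K × K // B.evalEval q.1 q.2 = 0}

/-- Evaluation at a point of the curve. -/
noncomputable def pt {B : K[X][X]} (q : Pts B) : AdjoinRoot B →ₐ[K] K :=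
  { AdjoinRoot.evalEval q.2 with
    commutes' := fun c => by
      change AdjoinRoot.evalEval q.2 (AdjoinRoot.mk B (C (C c))) = c
      rw [AdjoinRoot.evalEval_mk, evalEval_CC] }

theorem pt_mk {B : K[X][X]} (q : Pts B) (g : K[X][X]) :
    pt q (mkK B g) = g.evalEval q.1.1 q.1.2 := AdjoinRoot.evalEval_mk q.2 g

theorem pt_x {B : K[X][X]} (q : Pts B) : pt q (mkK B (C X)) = q.1.1 := by
  rw [pt_mk, evalEval_C, eval_X]

theorem pt_y {B : K[X][X]} (q : Pts B) : pt q (mkK B X) = q.1.2 := by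
  rw [pt_mk, evalEval_X]

theorem count {B : K[X][X]} (hB : IsCurve B) (S : Finset (Pts B)) (M : ℕ)
    (hS : 1 < M → ∀ q ∈ S, pt q (mkK B (derivative B)) ≠ 0)
    (hM : ∀ j < M, (j.factorial : K) ≠ 0) {u : AdjoinRoot B} (hu : u ≠ 0)
    (h : ∀ q ∈ S, Van (th B) (pt q) M u) : M * S.card ≤ ell B u := by
  have := finite_quot hB hu
  rw [← finrank_quot hB hu]
  refine zero_count (th B) S pt (fun q _ q' _ e => ?_) M (fun q hq => ?_) hM u h
  · exact Subtype.ext (Prod.ext (by rw [← pt_x, e, pt_x]) (by rw [← pt_y, e, pt_y]))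
  · refine ⟨mkK B (C X) - algebraMap K _ q.1.1, by simp [pt_x], fun h1 => ?_⟩
    simpa [th_x] using hS h1 q hq

theorem count_one {B : K[X][X]} (hB : IsCurve B) (S : Finset (Pts B)) {u : AdjoinRoot B}
    (hu : u ≠ 0) (h : ∀ q ∈ S, pt q u = 0) : S.card ≤ ell B u := by
  simpa using count hB S 1 (by simp) (by simp) hu fun q hq i hi => by
    obtain rfl : i = 0 := by omega
    simpa using h q hq

theorem exists_pt [IsAlgClosed K] {B : K[X][X]} (hB : IsCurve B) {u : AdjoinRoot B}
    (hu : u ≠ 0) : ∃ q : Pts B, pt q u ≠ 0 := by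
  classical
  by_contra hc
  push Not at hc
  have : ∀ x : K, ∃ y, B.evalEval x y = 0 := fun x => by
    obtain ⟨y, hy⟩ := IsAlgClosed.exists_root (B.map (evalRingHom x)) (by
      rw [hB.monic.degree_map, degree_eq_natDegree hB.monic.ne_zero]
      exact_mod_cast hB.pos.ne')
    exact ⟨y, by rwa [← map_evalRingHom_eval]⟩
  choose y hy using this
  obtain ⟨T, hT⟩ := Infinite.exists_subset_card_eq K (ell B u + 1)
  have := count_one hB (T.map ⟨fun x => ⟨(x, y x), hy x⟩, fun a b e =>
    congrArg (fun q : Pts B => q.1.1) e⟩) hu fun q _ => hc q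
  rw [Finset.card_map] at this
  omega

/-- A function of degree at most `T` vanishing to infinite order at a smooth point is zero. -/
theorem eq_zero_of_van (p : ℕ) [Fact p.Prime] [CharP K p] {B : K[X][X]} (hB : IsCurve B)
    {T : ℕ} (hT : B.natDegree * T < p) {u : AdjoinRoot B} (hu : u ∈ W B T) (q : Pts B)
    (hq : pt q (mkK B (derivative B)) ≠ 0) (h : ∀ i, pt q (it (th B) i u) = 0) : u = 0 := by
  by_contra h0
  have := count hB {q} p (by simpa using fun _ => hq) (factorial_ne_zero_of_le p le_rfl) h0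
    (fun q' hq' i _ => by rw [Finset.mem_singleton.1 hq']; exact h i)
  have := ell_le hB hu
  simp at *
  omega

theorem derivative_ne_zero (p : ℕ) [Fact p.Prime] [CharP K p] {B : K[X][X]} (hB : IsCurve B)
    (hp : B.natDegree < p) : mkK B (derivative B) ≠ 0 := by
  refine mkK_ne_zero hB.monic (fun h0 => ?_) (natDegree_derivative_lt hB.pos.ne')
  have h1 := coeff_derivative B (B.natDegree - 1)
  have h2 := hB.pos
  rw [h0, Nat.sub_add_cancel h2, hB.monic.coeff_natDegree, one_mul, ← Nat.cast_succ,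
    Nat.succ_eq_add_one, Nat.sub_add_cancel h2, coeff_zero, eq_comm,
    CharP.cast_eq_zero_iff K[X] p] at h1
  exact absurd (Nat.le_of_dvd h2 h1) (by omega)

end Pool.Agent.Lib.Common.Stepanov
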