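import Pool.Agent.Lib.Common.Stepanov.Curve

/-! Bounding an intersection number by the fibres over the roots of a polynomial. -/

set_option autoImplicit false

namespace Pool.Agent.Lib.Common.Stepanov

open Polynomial Module

variable {K : Type*} [Field K]

theorem finrank_quot_eq_ker {Q : Type*} [CommRing Q] [Algebra K Q] [Module.Finite K Q] (a : Q) :
    finrank K (Q ⧸ Ideal.span {a}) = finrank K (LinearMap.ker (LinearMap.mulLeft K a)) := by
  have h1 := LinearMap.finrank_range_add_finrank_ker (LinearMap.mulLeft K a)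
  have h2 := LinearMap.finrank_range_add_finrank_ker
    (Ideal.Quotient.mkₐ K (Ideal.span {a})).toLinearMap
  rw [LinearMap.range_eq_top.2 (Ideal.Quotient.mkₐ_surjective K _), finrank_top] at h2
  have : LinearMap.ker (Ideal.Quotient.mkₐ K (Ideal.span {a})).toLinearMap =
      LinearMap.range (LinearMap.mulLeft K a) := by
    ext u
    simp [Ideal.Quotient.eq_zero_iff_mem, Ideal.mem_span_singleton', mul_comm]
  rw [this] at h2
  omega

theorem finrank_le_sum {Q : Type*} [CommRing Q] [Algebra K Q] [Module.Finite K Q]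
    (l : Multiset Q) (h : l.prod = 0) :
    finrank K Q ≤ (l.map fun a => finrank K (Q ⧸ Ideal.span {a})).sum := by
  have key : finrank K (LinearMap.ker (LinearMap.mulLeft K l.prod)) ≤
      (l.map fun a => finrank K (Q ⧸ Ideal.span {a})).sum := by
    clear h
    induction l using Multiset.induction_on with
    | empty =>
      rw [Multiset.prod_zero, LinearMap.mulLeft_one, LinearMap.ker_id]; simp
    | cons a l ih =>
      rw [Multiset.prod_cons, Multiset.map_cons, Multiset.sum_cons, finrank_quot_eq_ker]
      let φ : LinearMap.ker (LinearMap.mulLeft K (a * l.prod)) →ₗ[K]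
          LinearMap.ker (LinearMap.mulLeft K a) :=
        (LinearMap.mulLeft K l.prod).restrict fun u hu => by simpa [mul_assoc] using hu
      have h1 := LinearMap.finrank_range_add_finrank_ker φ
      have h2 := Submodule.finrank_le (LinearMap.range φ)
      let ψ : LinearMap.ker φ →ₗ[K] LinearMap.ker (LinearMap.mulLeft K l.prod) :=
        LinearMap.codRestrict _ ((Submodule.subtype _).comp (Submodule.subtype _)) fun u =>
          congrArg Subtype.val u.2
      have h3 := LinearMap.finrank_le_finrank_of_injective (f := ψ) fun u v e =>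
        Subtype.ext (Subtype.ext
          (congrArg (fun w : LinearMap.ker (LinearMap.mulLeft K l.prod) => w.1) e))
      omega
  rwa [h, LinearMap.mulLeft_zero_eq_zero, LinearMap.ker_zero, finrank_top] at key

theorem finrank_le_of_gen {Q : Type*} [CommRing Q] [Algebra K Q] (π : K[X][X] →ₐ[K] Q)
    (hπ : Function.Surjective π) (x : K) (hx : π (C X) = algebraMap K Q x) :
    (∀ u, π u = aeval (π X) (u.map (evalRingHom x))) ∧
      ∀ g : K[X], g ≠ 0 → aeval (π X) g = 0 → finrank K Q ≤ g.natDegree := by
  have h1 : ∀ u, π u = aeval (π X) (u.map (evalRingHom x)) := by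
    intro u
    induction u using Polynomial.induction_on' with
    | add p q hp hq => simp [hp, hq, Polynomial.map_add]
    | monomial n c =>
      rw [← C_mul_X_pow_eq_monomial, map_mul, map_pow, Polynomial.map_mul, Polynomial.map_pow,
        map_C, map_X, map_mul, map_pow, aeval_X, aeval_C, coe_evalRingHom,
        ← aeval_algebraMap_apply_eq_algebraMap_eval, ← hx, aeval_algHom_apply]
      congr 2
      simpa using (aeval_algHom_apply (CAlgHom (R := K) (A := K[X])) X c).symm
  refine ⟨h1, fun g hg h => ?_⟩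
  have := (AdjoinRoot.powerBasis hg).finite
  rw [← AdjoinRoot.powerBasis_dim hg, ← (AdjoinRoot.powerBasis hg).finrank]
  refine LinearMap.finrank_le_finrank_of_surjective
    (f := (AdjoinRoot.liftAlgHom g (Algebra.ofId K Q) (π X) h).toLinearMap) fun u => ?_
  obtain ⟨u, rfl⟩ := hπ u
  exact ⟨AdjoinRoot.mk g (u.map (evalRingHom x)), by rw [h1 u]; simp [aeval_def]⟩

theorem ell_le_fibres [IsAlgClosed K] {B B' : K[X][X]} (hB : IsCurve B) (hne : mkK B B' ≠ 0)
    {h : K[X]} (hh : h ≠ 0) (hd : mkK B B' ∣ mkK B (C h)) (c : ℕ)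
    (hc : ∀ x, h.IsRoot x → ∃ g u v : K[X], g ≠ 0 ∧ g.natDegree ≤ c ∧
      g = B.map (evalRingHom x) * u + B'.map (evalRingHom x) * v) :
    ell B (mkK B B') ≤ c * h.natDegree := by
  have := finite_quot hB hne
  rw [← finrank_quot hB hne]
  let π := (Ideal.Quotient.mkₐ K (Ideal.span {mkK B B'})).comp (mkK B)
  have hπ : Function.Surjective π :=
    (Ideal.Quotient.mkₐ_surjective K _).comp AdjoinRoot.mk_surjective
  have h0 : π (C h) = 0 := Ideal.Quotient.eq_zero_iff_mem.2 (Ideal.mem_span_singleton.2 hd)
  refine (finrank_le_sum (K := K) (h.roots.map fun x => π (C (X - C x))) ?_).trans ?_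
  · have h1 := (IsAlgClosed.splits h).eq_prod_roots
    rw [h1, map_mul, map_mul, map_multiset_prod, map_multiset_prod, Multiset.map_map,
      Multiset.map_map] at h0
    refine (IsUnit.mul_right_eq_zero ?_).1 h0
    exact (((leadingCoeff_ne_zero.2 hh).isUnit.map C).map C).map π
  · rw [Multiset.map_map, ← IsAlgClosed.card_roots_eq_natDegree, mul_comm, ← smul_eq_mul,
      ← Multiset.card_map (fun x => finrank K (_ ⧸ Ideal.span {π (C (X - C x))}))]
    refine Multiset.sum_le_card_nsmul _ _ fun m hm => ?_
    obtain ⟨x, hx, rfl⟩ := Multiset.mem_map.1 hm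
    obtain ⟨g, u, v, g0, g1, g2⟩ := hc x ((mem_roots hh).1 hx)
    let π' := (Ideal.Quotient.mkₐ K (Ideal.span {π (C (X - C x))})).comp π
    have e0 : π' (C (X - C x)) = 0 :=
      Ideal.Quotient.eq_zero_iff_mem.2 (Ideal.mem_span_singleton_self _)
    obtain ⟨e1, e2⟩ := finrank_le_of_gen π' ((Ideal.Quotient.mkₐ_surjective K _).comp hπ) x (by
      have e3 : π' (C X) - π' (C (C x)) = 0 := by rw [← map_sub π', ← map_sub C]; exact e0
      rw [sub_eq_zero.1 e3]; exact π'.commutes x)
    refine (e2 g g0 ?_).trans g1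
    have a1 : π B = 0 := by simp [π, mkK_eq_zero.2 dvd_rfl]
    have a2 : π B' = 0 := Ideal.Quotient.eq_zero_iff_mem.2 (Ideal.mem_span_singleton_self _)
    rw [g2, map_add, map_mul, map_mul, ← e1, ← e1]
    simp [π', a1, a2]

end Pool.Agent.Lib.Common.Stepanov
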