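import Pool.Agent.Lib.Common.Stepanov.Van

/-! The Heath-Brown, Konyagin bound for common solutions of `x^n = w` and `(1-x)^n = w'`. -/

set_option autoImplicit false

namespace Pool.Agent.Lib.Common.Stepanov

open Polynomial

variable {K : Type*} [Field K]

theorem sparse_not_dvd (p : ℕ) [CharP K p] (J : ℕ) (P : K[X]) (h0 : P ≠ 0) (hp : P.natDegree < p)
    (hJ : P.support.card ≤ J) : ¬ (1 - X) ^ J ∣ P := by
  induction J generalizing P with
  | zero => exact absurd (card_support_eq_zero.1 (by omega)) h0
  | succ J ih =>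
    intro hd
    set Q : K[X] := X * derivative P - C (P.natDegree : K) * P with hQ
    have hc : ∀ e, Q.coeff e = ((e : K) - P.natDegree) * P.coeff e := by
      intro e
      rw [hQ, coeff_sub, coeff_C_mul]
      cases e with
      | zero => simp
      | succ e => rw [coeff_X_mul, coeff_derivative]; push_cast; ring
    have hs : Q.support = P.support.erase P.natDegree := by
      ext e
      simp only [mem_support_iff, hc, Finset.mem_erase, mul_ne_zero_iff, sub_ne_zero]
      refine and_congr_left fun he => ⟨fun h h' => h (by rw [h']), fun h h' => h ?_⟩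
      have := le_natDegree_of_ne_zero he
      exact CharP.natCast_injOn_Iio K p (by simp; omega) (by simpa using hp) h'
    have hm : P.natDegree ∈ P.support := natDegree_mem_support_of_nonzero h0
    by_cases hQ0 : Q = 0
    · have h1 : P.support.card ≤ 1 := by
        have := Finset.card_erase_of_mem hm
        rw [← hs, hQ0] at this
        simp at this
        omega
      have h2 := C_mul_X_pow_eq_self h1
      have h3 := eval_eq_zero_of_dvd_of_eval_eq_zero (x := 1)
        ((dvd_pow_self _ (Nat.succ_ne_zero J)).trans hd) (by simp)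
      rw [← h2] at h3
      simp [h0] at h3
    · refine ih Q hQ0 (lt_of_le_of_lt (natDegree_le_iff_coeff_eq_zero.2 fun e he => ?_) hp)
        (by rw [hs, Finset.card_erase_of_mem hm]; omega) ?_
      · rw [hc, coeff_eq_zero_of_natDegree_lt he, mul_zero]
      · exact dvd_sub ((pow_sub_one_dvd_derivative_of_pow_dvd hd).mul_left _)
          (((pow_dvd_pow _ (Nat.le_succ J)).trans hd).mul_left _)

theorem hbk (p : ℕ) [Fact p.Prime] [CharP K p] {n : ℕ} (hn : 32040 ≤ n) (hp : 40 * n < p)
    (w w' : K) (S : Finset K) (hS : ∀ x ∈ S, x ≠ 0 ∧ x ≠ 1 ∧ x ^ n = w ∧ (1 - x) ^ n = w') :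
    10 * S.card ≤ n := by
  classical
  obtain ⟨A, hA⟩ : ∃ A, A = n / 40 := ⟨_, rfl⟩
  let θ : Derivation K K[X] K[X] := (X * (1 - X) : K[X]) • derivative'
  have hθ : ∀ g, θ g = X * (1 - X) * derivative g := fun g => rfl
  have hex : ∀ a b c i : ℕ, ∃ P : K[X], P.natDegree ≤ a + i ∧
      it θ i (X ^ a * (X ^ (b * n) * (1 - X) ^ (c * n))) =
        P * (X ^ (b * n) * (1 - X) ^ (c * n)) := by
    intro a b c i
    induction i with
    | zero => exact ⟨X ^ a, by simp, by simp⟩
    | succ i ih =>
      obtain ⟨P, h1, h2⟩ := ih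
      refine ⟨(1 - X) * (X * derivative P) + P * (C (b * n : K) * (1 - X) - C (c * n : K) * X),
        ?_, ?_⟩
      · have h3 : (X * derivative P).natDegree ≤ a + i :=
          natDegree_le_iff_coeff_eq_zero.2 fun e he => by
            obtain ⟨e, rfl⟩ : ∃ e', e = e' + 1 := ⟨e - 1, by omega⟩
            rw [coeff_X_mul, coeff_derivative, coeff_eq_zero_of_natDegree_lt (by omega), zero_mul]
        have h4 : (1 - X : K[X]).natDegree ≤ 1 := by compute_degree
        have h5 : (C (b * n : K) * (1 - X) - C (c * n : K) * X).natDegree ≤ 1 := by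
          compute_degree
        refine natDegree_add_le_of_degree_le (natDegree_mul_le.trans ?_)
          (natDegree_mul_le.trans ?_) <;> omega
      · have e1 : ∀ m : ℕ, X * derivative (X ^ m : K[X]) = C (m : K) * X ^ m := fun m => by
          cases m with
          | zero => simp
          | succ m => rw [derivative_X_pow_succ]; push_cast; ring
        have e2 : ∀ m : ℕ, (1 - X) * derivative ((1 - X) ^ m : K[X]) =
            -(C (m : K) * (1 - X) ^ m) := fun m => by
          cases m with
          | zero => simp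
          | succ m => rw [derivative_pow_succ]; push_cast; simp; ring
        rw [it_succ, h2, hθ, derivative_mul, derivative_mul]
        have := e1 (b * n)
        have := e2 (c * n)
        push_cast at *
        linear_combination (P * (1 - X) * (1 - X) ^ (c * n)) * ‹X * _ = _› +
          (P * X * X ^ (b * n)) * this
  choose P hP1 hP2 using hex
  let v : Fin 40 × (Fin A × Fin 40) → (Fin 800 × Fin (A + 800) → K) := fun z y =>
    (w ^ (z.2.2 : ℕ) * w' ^ (z.1 : ℕ)) * (P z.2.1 z.2.2 z.1 y.1).coeff y.2
  have hdep : ¬ LinearIndependent K v := fun h => by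
    have h1 := h.fintype_card_le_finrank
    simp only [Fintype.card_prod, Fintype.card_fin, Module.finrank_fintype_fun_eq_card] at h1
    omega
  obtain ⟨l, hl, z0, hz0⟩ := Fintype.not_linearIndependent_iff.1 hdep
  have hcond : ∀ i : Fin 800, ∑ z : Fin 40 × (Fin A × Fin 40),
      (l z * (w ^ (z.2.2 : ℕ) * w' ^ (z.1 : ℕ))) • P z.2.1 z.2.2 z.1 i = 0 := by
    intro i
    ext j
    simp only [finsetSum_coeff, coeff_smul, coeff_zero, smul_eq_mul]
    rcases lt_or_ge j (A + 800) with hj | hj
    · simpa [v, mul_assoc] using congrFun hl (i, ⟨j, hj⟩)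
    · refine Finset.sum_eq_zero fun z _ => ?_
      have := hP1 z.2.1 z.2.2 z.1 i
      have := z.2.1.2
      have := i.2
      rw [coeff_eq_zero_of_natDegree_lt (by omega), mul_zero]
  let Q : Fin 40 → K[X] := fun c => ∑ y : Fin A × Fin 40, monomial (y.1 + y.2 * n) (l (c, y))
  set Ψ : K[X] := ∑ z : Fin 40 × (Fin A × Fin 40),
    l z • (X ^ (z.2.1 : ℕ) * (X ^ (z.2.2 * n) * (1 - X) ^ (z.1 * n))) with hΨ
  have hΨQ : Ψ = ∑ c : Fin 40, (1 - X) ^ (c * n) * Q c := by
    rw [hΨ, Fintype.sum_prod_type]
    refine Finset.sum_congr rfl fun c _ => ?_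
    rw [Finset.mul_sum]
    refine Finset.sum_congr rfl fun y _ => ?_
    rw [← C_mul_X_pow_eq_monomial, smul_eq_C_mul, pow_add]; ring
  have hQd : ∀ c, (Q c).natDegree ≤ 40 * n := fun c =>
    natDegree_sum_le_of_forall_le _ _ fun y _ => (natDegree_monomial_le _).trans (by
      have := y.1.2
      have := Nat.mul_le_mul_right n (show (y.2 : ℕ) ≤ 39 by have := y.2.2; omega)
      omega)
  have hΨ0 : Ψ ≠ 0 := by
    intro h0
    have key : ∀ (c : ℕ) (hc : c < 40), Q ⟨c, hc⟩ = 0 := by
      intro c
      induction c using Nat.strong_induction_on with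
      | _ c ih =>
        intro hc
        by_contra hne
        refine sparse_not_dvd p n _ hne ((hQd _).trans_lt hp) ?_ ?_
        · refine (Finset.card_le_card (t := Finset.univ.image fun y : Fin A × Fin 40 =>
            (y.1 + y.2 * n : ℕ)) fun e he => ?_).trans (Finset.card_image_le.trans ?_)
          · by_contra hc'
            refine mem_support_iff.1 he ?_
            simp only [Q, finsetSum_coeff, coeff_monomial]
            exact Finset.sum_eq_zero fun y _ => if_neg fun h =>
              hc' (Finset.mem_image.2 ⟨y, Finset.mem_univ _, h⟩)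
          · simp; omega
        · have h1 : (1 - X : K[X]) ≠ 0 := fun h => by simpa using congrArg (eval 0) h
          rw [← mul_dvd_mul_iff_left (pow_ne_zero (c * n) h1), ← pow_add]
          rw [hΨQ, ← Finset.add_sum_erase _ _ (Finset.mem_univ ⟨c, hc⟩)] at h0
          rw [eq_neg_of_add_eq_zero_left h0, dvd_neg]
          refine Finset.dvd_sum fun c' hc' => ?_
          rcases lt_trichotomy (c' : ℕ) c with h | h | h
          · rw [show Q c' = 0 from ih c' h c'.2]; simp
          · exact absurd (Fin.ext h) (Finset.mem_erase.1 hc').1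
          · exact (pow_dvd_pow _ (by nlinarith)).mul_right _
    have h1 := congrArg (fun f => coeff f (z0.2.1 + z0.2.2 * n)) (key z0.1 z0.1.2)
    simp only [Q, finsetSum_coeff, coeff_monomial, coeff_zero] at h1
    rw [Finset.sum_eq_single z0.2] at h1
    · exact hz0 (by simpa using h1)
    · intro y _ hy
      refine if_neg fun h => hy ?_
      have a1 := y.1.2
      have a2 := z0.2.1.2
      have h2 := congrArg (· % n) h
      simp only [Nat.add_mul_mod_self_right, Nat.mod_eq_of_lt (show (y.1 : ℕ) < n by omega),
        Nat.mod_eq_of_lt (show (z0.2.1 : ℕ) < n by omega)] at h2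
      rw [h2, Nat.add_right_inj] at h
      exact Prod.ext (Fin.ext h2) (Fin.ext (Nat.eq_of_mul_eq_mul_right (by omega) h))
    · simp
  have : Module.Finite K (K[X] ⧸ Ideal.span {Ψ}) := (AdjoinRoot.powerBasis hΨ0).finite
  have hc := zero_count θ S (fun x => aeval x) (fun x _ y _ e => by
      simpa using DFunLike.congr_fun e X) 800
    (fun x hx => ⟨X - C x, by simp, fun _ => by
      simpa [hθ, sub_eq_zero] using ⟨(hS x hx).1, (hS x hx).2.1.symm⟩⟩)
    (factorial_ne_zero_of_le p (by omega)) Ψ fun x hx i hi => by
      have h1 := congrArg (aeval x) (hcond ⟨i, hi⟩)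
      rw [map_zero] at h1
      rw [← h1, hΨ]
      simp only [map_sum, map_smul, hP2]
      simp only [map_mul, map_pow, aeval_X, map_sub, map_one,
        smul_eq_mul, pow_mul', (hS x hx).2.2.1, (hS x hx).2.2.2]
      exact Finset.sum_congr rfl fun _ _ => by ring
  rw [finrank_quotient_span_eq_natDegree] at hc
  have hd : Ψ.natDegree ≤ 80 * n := by
    rw [hΨQ]
    refine natDegree_sum_le_of_forall_le _ _ fun c _ => natDegree_mul_le.trans ?_
    have h4 : (1 - X : K[X]).natDegree ≤ 1 := by compute_degree
    have h5 := (natDegree_pow_le (p := (1 - X : K[X])) (n := c * n)).trans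
      (Nat.mul_le_mul_left _ h4)
    have := Nat.mul_le_mul_right n c.2.le
    have := hQd c
    omega
  omega

end Pool.Agent.Lib.Common.Stepanov
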