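import Pool.Agent.Lib.Common.Stepanov.Curve

/-! The Stepanov-Schmidt auxiliary function on an absolutely irreducible plane curve. -/

set_option autoImplicit false

namespace Pool.Agent.Lib.Common.Stepanov

open Polynomial

variable {K : Type*} [Field K]

/-- The monomial `x^a y^b` on the curve. -/
noncomputable def mon (B : K[X][X]) (a b : ℕ) : AdjoinRoot B := mkK B (C X) ^ a * mkK B X ^ b

theorem mon_mem (B : K[X][X]) (a b : ℕ) : mon B a b ∈ W B (a + b) := by
  simpa [mon] using W_mul (W_pow (mem_W (B := B) Fil_CX) a) (W_pow (mem_W (B := B) Fil_X) b)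

theorem mon_indep {B : K[X][X]} (hB : IsCurve B) {m : ℕ} (c : Fin m × Fin B.natDegree → K)
    (h : ∑ i, c i • mon B i.1 i.2 = 0) (i : Fin m × Fin B.natDegree) : c i = 0 := by
  set g : K[X][X] := ∑ i : Fin m × Fin B.natDegree, c i • (C (X ^ (i.1 : ℕ)) * X ^ (i.2 : ℕ))
    with hg
  have h1 : mkK B g = 0 := by
    rw [← h, hg, map_sum]
    simp only [map_smul, map_mul, map_pow, mon]
  have h2 : g = 0 := by
    by_contra h0
    refine mkK_ne_zero hB.monic h0 ?_ h1
    have := hB.pos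
    refine lt_of_le_of_lt (natDegree_sum_le_of_forall_le _ _ (n := B.natDegree - 1)
      fun j _ => (natDegree_smul_le _ _).trans ((natDegree_C_mul_X_pow_le _ _).trans ?_)) (by omega)
    have := j.2.2
    omega
  have h3 := congrArg (fun f : K[X][X] => (f.coeff i.2).coeff i.1) h2
  simp only [hg, finsetSum_coeff, coeff_smul, coeff_C_mul, coeff_X_pow, coeff_zero] at h3
  rw [Finset.sum_eq_single i] at h3
  · simpa using h3
  · intro j _ hj
    by_cases e : (i.2 : ℕ) = j.2
    · have : (i.1 : ℕ) ≠ j.1 := fun e' => hj (Prod.ext (Fin.ext e'.symm) (Fin.ext e.symm))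
      simp [e, coeff_X_pow, this]
    · simp [e]
  · simp

theorem eq_zero_of_coord {B : K[X][X]} (hB : IsCurve B) {n : ℕ} {u : AdjoinRoot B}
    (hu : u ∈ W B n) (h : ∀ (j : Fin B.natDegree) (a : Fin (n + 1)),
      ((AdjoinRoot.modByMonicHom hB.monic u).coeff j).coeff a = 0) : u = 0 := by
  refine (AdjoinRoot.powerBasisAux' hB.monic).ext_elem fun j => ?_
  rw [AdjoinRoot.powerBasisAux'_repr_apply_to_fun, map_zero, Finsupp.zero_apply]
  ext a
  rcases lt_or_ge a (n + 1) with ha | ha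
  · exact h j ⟨a, ha⟩
  · exact W_coord hB hu a j (by omega)

theorem th_pow_char (p : ℕ) [CharP K p] (B : K[X][X]) (u : AdjoinRoot B) : th B (u ^ p) = 0 := by
  rw [Derivation.leibniz_pow, ← Nat.cast_smul_eq_nsmul K, CharP.cast_eq_zero, zero_smul]

theorem stepanov [IsAlgClosed K] (p : ℕ) [Fact p.Prime] [CharP K p] {B : K[X][X]}
    (hB : IsCurve B) (hp : 50 * B.natDegree ^ 5 < p) (lam : ℕ) (hl : lam ≤ B.natDegree)
    (b : Fin B.natDegree → Fin lam → AdjoinRoot B) (hb : ∀ l l', b l l' ∈ W B B.natDegree)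
    (S : Finset (Pts B)) (hS1 : ∀ q ∈ S, q.1.1 ^ p = q.1.1)
    (hS2 : ∀ q ∈ S, pt q (mkK B (derivative B)) ≠ 0)
    (hS3 : ∀ q ∈ S, ∃ ω : Fin lam → K, ∀ l : Fin B.natDegree,
      (q.1.2 ^ p) ^ (l : ℕ) = ∑ l', pt q (b l l') * ω l') :
    2 * S.card ≤ (2 * lam + 1) * p := by
  classical
  have := hB.isDomain
  let β := B.natDegree
  have hβdef : β = B.natDegree := rfl
  have hβ : 0 < β := hB.pos
  replace hp : 50 * β ^ 5 < p := hp
  replace hl : lam ≤ β := hl
  obtain ⟨M, hM⟩ : ∃ M, M = 4 * β ^ 2 := ⟨_, rfl⟩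
  obtain ⟨L, hL⟩ : ∃ L, L = β * (4 * lam + 1) := ⟨_, rfl⟩
  obtain ⟨D, hD⟩ : ∃ D, D = 49 * β ^ 4 := ⟨_, rfl⟩
  obtain ⟨T, hT⟩ : ∃ T, T = D + β + M * β + L + β := ⟨_, rfl⟩
  have e1 : β ≤ β ^ 4 := Nat.le_self_pow (by norm_num) _
  have e2 : β ^ 2 ≤ β ^ 4 := Nat.pow_le_pow_right hβ (by norm_num)
  have e3 : β ^ 3 ≤ β ^ 4 := Nat.pow_le_pow_right hβ (by norm_num)
  have e4 : β ^ 4 ≤ β ^ 5 := Nat.pow_le_pow_right hβ (by norm_num)
  have hDp : β * (D + β) < p := by rw [hD]; nlinarith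
  let t : Fin M → Fin lam → (Fin L × Fin β) × (Fin D × Fin β) → AdjoinRoot B := fun i l' z =>
    it (th B) i (mon B z.2.1 z.2.2) * (mkK B (C X) ^ (z.1.1 : ℕ) * b z.1.2 l')
  let v : (Fin L × Fin β) × (Fin D × Fin β) → (Fin M × Fin lam × Fin β × Fin (T + 1) → K) :=
    fun z w => ((AdjoinRoot.modByMonicHom hB.monic (t w.1 w.2.1 z)).coeff w.2.2.1).coeff w.2.2.2
  have hdep : ¬ LinearIndependent K v := fun h => by
    have h1 := h.fintype_card_le_finrank
    simp only [Fintype.card_prod, Fintype.card_fin, Module.finrank_fintype_fun_eq_card] at h1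
    have h2 : 4 * lam * (T + 1) < (4 * lam + 1) * D := by
      have : 4 * lam * (2 * β + M * β + L + 1) < D := by
        calc 4 * lam * (2 * β + M * β + L + 1) ≤ 4 * β * (2 * β + M * β + β * (4 * β + 1) + 1) := by
              rw [hL]; gcongr
          _ < D := by rw [hM, hD]; nlinarith
      rw [hT]; nlinarith
    have h3 := Nat.mul_lt_mul_of_pos_left h2 (pow_pos hβ 3)
    rw [hL, hM] at h1
    nlinarith
  obtain ⟨c, hc, z0, hz0⟩ := Fintype.not_linearIndependent_iff.1 hdep
  have hmon : ∀ z : Fin D × Fin β, mon B z.1 z.2 ∈ W B (D + β) := fun z =>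
    W_mono (mon_mem B _ _) (by have := z.1.2; have := z.2.2; omega)
  have hcond : ∀ i l', ∑ z, c z • t i l' z = 0 := by
    intro i l'
    refine eq_zero_of_coord hB (n := T) (Submodule.sum_mem _ fun z _ => Submodule.smul_mem _ _
      (W_mono (W_mul (W_it hB (hmon z.2) i) (W_mul (W_pow (mem_W Fil_CX) z.1.1) (hb z.1.2 l')))
        ?_)) fun j a => ?_
    · have h1 := Nat.mul_le_mul_right β i.2.le
      have := z.1.1.2
      rw [← hβdef]
      omega
    · have := congrFun hc (i, l', j, a)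
      simpa only [map_sum, LinearMap.map_smul_of_tower, finsetSum_coeff, coeff_smul,
        Finset.sum_apply, Pi.smul_apply, Pi.zero_apply] using this
  set Ψ : AdjoinRoot B := ∑ z, c z • (mon B z.2.1 z.2.2 * mon B z.1.1 z.1.2 ^ p) with hΨ
  have hit : ∀ (q : Pts B) i, pt q (it (th B) i Ψ) = ∑ z, c z * (pt q (it (th B) i
      (mon B z.2.1 z.2.2)) * pt q (mon B z.1.1 z.1.2) ^ p) := by
    intro q i
    simp only [hΨ, map_sum, map_smul, it_mul_const _ (th_pow_char p B _), map_mul, map_pow,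
      smul_eq_mul]
  have hd := derivative_ne_zero p hB (by nlinarith)
  have hΨ0 : Ψ ≠ 0 := by
    intro h0
    have hp0 : 0 < p := (Fact.out : p.Prime).pos
    choose r hr using fun z => IsAlgClosed.exists_pow_nat_eq (c z) hp0
    let w : Fin D × Fin β → AdjoinRoot B := fun y => ∑ x, r (x, y) • mon B x.1 x.2
    have hw : w z0.2 ≠ 0 := fun h => hz0 (by
      rw [← hr, show r z0 = 0 from mon_indep hB _ h z0.1, zero_pow hp0.ne'])
    obtain ⟨q, hq⟩ := exists_pt hB (mul_ne_zero hw hd)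
    rw [map_mul] at hq
    have := eq_zero_of_van p hB hDp (u := ∑ y, pt q (w y) ^ p • mon B y.1 y.2)
      (Submodule.sum_mem _ fun y _ => Submodule.smul_mem _ _ (hmon y)) q
      (right_ne_zero_of_mul hq) fun i => by
        have := hit q i
        rw [h0, map_zero, map_zero, Fintype.sum_prod_type_right] at this
        rw [this]
        simp only [map_sum, map_smul, smul_eq_mul, w, sum_pow_char, mul_pow, hr, Finset.sum_mul]
        exact Finset.sum_congr rfl fun _ _ => Finset.sum_congr rfl fun _ _ => by ring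
    exact pow_ne_zero p (left_ne_zero_of_mul hq) (mon_indep hB _ this z0.2)
  have hcount := count hB S M (fun _ => hS2) (factorial_ne_zero_of_le p (by rw [hM]; nlinarith))
    hΨ0 fun q hq i hi => by
      obtain ⟨ω, hω⟩ := hS3 q hq
      have h1 : ∑ l', pt q (∑ z, c z • t ⟨i, hi⟩ l' z) * ω l' = 0 := by simp [hcond]
      rw [hit, ← h1]
      simp only [map_sum, map_smul, smul_eq_mul, t, map_mul, map_pow, Finset.sum_mul, pt_x]
      rw [Finset.sum_comm]
      refine Finset.sum_congr rfl fun z _ => ?_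
      have : pt q (mon B z.1.1 z.1.2) ^ p =
          q.1.1 ^ (z.1.1 : ℕ) * ∑ l', pt q (b z.1.2 l') * ω l' := by
        rw [← hω, mon, map_mul, map_pow, map_pow, pt_x, pt_y, mul_pow, pow_right_comm, hS1 q hq,
          pow_right_comm]
      rw [this, Finset.mul_sum, Finset.mul_sum, Finset.mul_sum]
      exact Finset.sum_congr rfl fun _ _ => by ring
  have hdeg : Ψ ∈ W B (p * (L + β)) := Submodule.sum_mem _ fun z _ => Submodule.smul_mem _ _
    (W_mono (W_mul (hmon z.2) (W_pow (mon_mem B z.1.1 z.1.2) p)) (by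
      have h1 := z.1.1.2
      have h2 := z.1.2.2
      have h3 : p * (z.1.1 + z.1.2 + 1) ≤ p * (L + β) := Nat.mul_le_mul_left _ (by omega)
      nlinarith))
  have h4 := hcount.trans (ell_le hB hdeg)
  rw [hM, hL, ← hβdef] at h4
  refine Nat.le_of_mul_le_mul_left (c := 2 * β ^ 2) ?_ (by positivity)
  nlinarith

end Pool.Agent.Lib.Common.Stepanov
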