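import Mathlib

/-! Orders of vanishing measured by a derivation, and the zero count they give. -/

set_option autoImplicit false

namespace Pool.Agent.Lib.Common.Stepanov

open Finset

variable {K A : Type*} [Field K] [CommRing A] [Algebra K A]

/-- The `i`-th iterate of a derivation, as a linear map. -/
noncomputable def it (θ : Derivation K A A) (i : ℕ) : A →ₗ[K] A :=
  ((θ : A →ₗ[K] A) : Module.End K A) ^ i

@[simp] theorem it_zero (θ : Derivation K A A) (u : A) : it θ 0 u = u := by simp [it]

theorem it_succ (θ : Derivation K A A) (i : ℕ) (u : A) : it θ (i + 1) u = θ (it θ i u) := by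
  simp [it, pow_succ']

theorem it_succ' (θ : Derivation K A A) (i : ℕ) (u : A) : it θ (i + 1) u = it θ i (θ u) := by
  simp [it, pow_succ]

theorem it_mul (θ : Derivation K A A) (u v : A) (n : ℕ) :
    it θ n (u * v) =
      ∑ ij ∈ antidiagonal n, (n.choose ij.1 : A) * (it θ ij.1 u * it θ ij.2 v) := by
  induction n with
  | zero => simp
  | succ n ih =>
    rw [Finset.sum_antidiagonal_choose_succ_mul (fun i j => it θ i u * it θ j v), it_succ, ih,
      map_sum, ← Finset.sum_add_distrib]
    refine Finset.sum_congr rfl fun ij hij => ?_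
    have h := Nat.choose_symm_of_eq_add (mem_antidiagonal.1 hij).symm
    rw [← h, Derivation.leibniz, Derivation.leibniz, Derivation.map_natCast, it_succ, it_succ]
    simp only [smul_eq_mul]; ring

theorem it_mul_const (θ : Derivation K A A) {c : A} (hc : θ c = 0) (u : A) (n : ℕ) :
    it θ n (u * c) = it θ n u * c := by
  induction n with
  | zero => simp
  | succ n ih => rw [it_succ, ih, Derivation.leibniz, hc, it_succ]; simp [mul_comm]

/-- Vanishing to order `M` at the point `P`. -/
def Van (θ : Derivation K A A) (P : A →ₐ[K] K) (M : ℕ) (u : A) : Prop :=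
  ∀ i < M, P (it θ i u) = 0

theorem Van.mul {θ : Derivation K A A} {P : A →ₐ[K] K} {a b : ℕ} {u v : A}
    (hu : Van θ P a u) (hv : Van θ P b v) :
    Van θ P (a + b) (u * v) ∧ P (it θ (a + b) (u * v)) =
      ((a + b).choose a : K) * (P (it θ a u) * P (it θ b v)) := by
  constructor
  · intro i hi
    rw [it_mul, map_sum]
    refine Finset.sum_eq_zero fun ij hij => ?_
    have := mem_antidiagonal.1 hij
    rcases lt_or_ge ij.1 a with h | h
    · simp [hu _ h]
    · simp [hv ij.2 (by omega)]
  · rw [it_mul, map_sum, Finset.sum_eq_single (a, b)]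
    · simp
    · intro ij hij hne
      have := mem_antidiagonal.1 hij
      rcases lt_trichotomy ij.1 a with h | h | h
      · simp [hu _ h]
      · exact absurd (Prod.ext h (by simp only; omega)) hne
      · simp [hv ij.2 (by omega)]
    · simp

theorem van_zero (θ : Derivation K A A) (P : A →ₐ[K] K) (u : A) : Van θ P 0 u :=
  fun _ h => absurd h (Nat.not_lt_zero _)

theorem Van.mul_right {θ : Derivation K A A} {P : A →ₐ[K] K} {a : ℕ} {u : A}
    (hu : Van θ P a u) (v : A) : Van θ P a (u * v) := (hu.mul (van_zero θ P v)).1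

theorem van_pow {θ : Derivation K A A} {P : A →ₐ[K] K} {t : A} (ht : P t = 0) (j : ℕ) :
    Van θ P j (t ^ j) ∧ P (it θ j (t ^ j)) = (j.factorial : K) * P (θ t) ^ j := by
  induction j with
  | zero => exact ⟨van_zero _ _ _, by simp⟩
  | succ j ih =>
    have h1 : Van θ P 1 t := fun i hi => by
      obtain rfl : i = 0 := by omega
      simpa using ht
    have := ih.1.mul h1
    rw [pow_succ]
    refine ⟨this.1, ?_⟩
    rw [this.2, ih.2, it_succ, it_zero, Nat.choose_succ_self_right, Nat.factorial_succ]
    push_cast; ring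

/-- The zero count: `M` times the number of points is at most the codimension of `(Ψ)`. -/
theorem zero_count (θ : Derivation K A A) {ι : Type*} (S : Finset ι) (P : ι → A →ₐ[K] K)
    (hP : Set.InjOn P S) (M : ℕ) (ht : ∀ s ∈ S, ∃ t, P s t = 0 ∧ (1 < M → P s (θ t) ≠ 0))
    (hM : ∀ j < M, (j.factorial : K) ≠ 0) (Ψ : A) (hΨ : ∀ s ∈ S, Van θ (P s) M Ψ)
    [Module.Finite K (A ⧸ Ideal.span {Ψ})] :
    M * S.card ≤ Module.finrank K (A ⧸ Ideal.span {Ψ}) := by
  classical
  have hsep : ∀ s ∈ S, ∃ h : A, P s h ≠ 0 ∧ ∀ s' ∈ S, s' ≠ s → P s' h = 0 := by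
    intro s hs
    have : ∀ s' ∈ S.erase s, ∃ h : A, P s h ≠ 0 ∧ P s' h = 0 := by
      intro s' hs'
      obtain ⟨hne, hs'⟩ := mem_erase.1 hs'
      have : P s' ≠ P s := fun h => hne (hP hs' hs h)
      obtain ⟨a, ha⟩ := DFunLike.ne_iff.1 this
      exact ⟨a - algebraMap K A (P s' a), by simpa [sub_eq_zero] using ha.symm, by simp⟩
    choose! h h1 h2 using this
    refine ⟨∏ s' ∈ S.erase s, h s', ?_, fun s' hs' hne => ?_⟩
    · rw [map_prod]; exact prod_ne_zero_iff.2 h1
    · rw [map_prod]; exact prod_eq_zero (mem_erase.2 ⟨hne, hs'⟩) (h2 _ (mem_erase.2 ⟨hne, hs'⟩))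
  choose! h h1 h2 using hsep
  choose! t t1 t2 using ht
  let u : Fin M × S → A := fun q => t q.2 ^ (q.1 : ℕ) * h q.2 ^ M
  let π := (Ideal.Quotient.mkₐ K (Ideal.span {Ψ})).toLinearMap
  have hli : LinearIndependent K (π ∘ u) := by
    rw [Fintype.linearIndependent_iff]
    intro c hc
    have hmem : ∑ q, c q • u q ∈ Ideal.span {Ψ} := by
      rw [← Ideal.Quotient.eq_zero_iff_mem]
      have : π (∑ q, c q • u q) = 0 := by simpa only [map_sum, map_smul, Function.comp] using hc
      exact this
    obtain ⟨w, hw⟩ := Ideal.mem_span_singleton'.1 hmem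
    have key : ∀ (s : S) (i : ℕ) (hi : i < M), c (⟨i, hi⟩, s) = 0 := by
      intro s i
      induction i using Nat.strong_induction_on with
      | _ i ih =>
        intro hi
        have h0 := (hΨ s s.2).mul_right w i hi
        rw [mul_comm, hw, map_sum, map_sum, Finset.sum_eq_single (⟨i, hi⟩, s)] at h0
        · have := ((van_pow (θ := θ) (t1 s s.2) i).1.mul (van_zero θ (P s) (h s ^ M))).2
          simp only [add_zero, Nat.choose_self, Nat.cast_one, one_mul, it_zero,
            (van_pow (θ := θ) (t1 s s.2) i).2] at this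
          rw [map_smul, map_smul, this] at h0
          have h3 := h1 s s.2
          have h4 : P s (θ (t s)) ^ i ≠ 0 := by
            rcases Nat.eq_zero_or_pos i with rfl | h
            · simp
            · exact pow_ne_zero _ (t2 s s.2 (by omega))
          have h5 := hM i hi
          rw [smul_eq_mul, map_pow] at h0
          exact (mul_eq_zero.1 h0).resolve_right
            (mul_ne_zero (mul_ne_zero h5 h4) (pow_ne_zero _ h3))
        · rintro ⟨j, s'⟩ - hne
          rw [map_smul, map_smul]
          by_cases hs : s' = s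
          · subst hs
            rcases lt_trichotomy (j : ℕ) i with hj | hj | hj
            · rw [show c (j, s') = 0 from ih j hj j.2, zero_smul]
            · exact (hne (Prod.ext (Fin.ext hj) rfl)).elim
            · rw [(van_pow (θ := θ) (t1 s' s'.2) j).1.mul_right _ i hj, smul_zero]
          · have := (van_pow (θ := θ) (h2 s' s'.2 s s.2 (fun e => hs (Subtype.ext e).symm))
              M).1.mul_right (t s' ^ (j : ℕ)) i hi
            rw [mul_comm] at this
            rw [this, smul_zero]
        · simp
    rintro ⟨i, s⟩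
    exact key s i i.2
  simpa using hli.fintype_card_le_finrank

theorem factorial_ne_zero_of_le (p : ℕ) [Fact p.Prime] [CharP K p] {M : ℕ} (hM : M ≤ p) :
    ∀ j < M, (j.factorial : K) ≠ 0 := fun j hj => by
  rw [Ne, CharP.cast_eq_zero_iff K p, (Fact.out : p.Prime).dvd_factorial]
  omega

end Pool.Agent.Lib.Common.Stepanov
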