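import Pool.Agent.Lib.Common.Stepanov.Step

/-! A crude Weil bound over the prime field for absolutely irreducible plane curves. -/

set_option autoImplicit false

namespace Pool.Agent.Lib.Common.Stepanov

open Polynomial

variable {K : Type*} [Field K]

theorem card_sing (p : ℕ) [Fact p.Prime] [CharP K p] {B : K[X][X]} (hB : IsCurve B)
    (hp : B.natDegree < p) (S : Finset (Pts B))
    (hS : ∀ q ∈ S, pt q (mkK B (derivative B)) = 0) : S.card ≤ B.natDegree ^ 2 := by
  have h1 := count_one hB S (derivative_ne_zero p hB hp) hS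
  have h2 := ell_le hB (mem_W (B := B) (Fil_mono (Fil_derivative hB.fil) (Nat.sub_le _ _)))
  nlinarith

theorem points_upper [IsAlgClosed K] (p : ℕ) [Fact p.Prime] [CharP K p] {B : K[X][X]}
    (hB : IsCurve B) (hp : 50 * B.natDegree ^ 5 < p) (N : Finset (Pts B))
    (hN : ∀ q ∈ N, q.1.1 ^ p = q.1.1 ∧ q.1.2 ^ p = q.1.2) :
    2 * N.card ≤ 3 * p + 2 * B.natDegree ^ 2 := by
  classical
  have e1 : B.natDegree ≤ B.natDegree ^ 5 := Nat.le_self_pow (by norm_num) _
  have h1 := card_sing p hB (by omega) (N.filter fun q => pt q (mkK B (derivative B)) = 0)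
    fun q hq => (Finset.mem_filter.1 hq).2
  have h2 := stepanov p hB hp 1 hB.pos (fun l _ => mkK B X ^ (l : ℕ))
    (fun l _ => W_mono (W_pow (mem_W Fil_X) l) (by have := l.2; omega))
    (N.filter fun q => ¬ pt q (mkK B (derivative B)) = 0)
    (fun q hq => (hN q (Finset.mem_filter.1 hq).1).1) (fun q hq => (Finset.mem_filter.1 hq).2)
    (fun q hq => ⟨fun _ => 1, fun l => by simp [pt_y, (hN q (Finset.mem_filter.1 hq).1).2]⟩)
  have := Finset.card_filter_add_card_filter_not (s := N)
    fun q => pt q (mkK B (derivative B)) = 0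
  omega

theorem points_lower [IsAlgClosed K] (p : ℕ) [Fact p.Prime] [CharP K p] {B : K[X][X]}
    (hB : IsCurve B) (hp : 50 * B.natDegree ^ 5 < p)
    (hFrob : ∀ x y : K, x ^ p = x → B.evalEval x y = 0 → B.evalEval x (y ^ p) = 0)
    (N : Finset (Pts B)) (hN : ∀ q : Pts B, q.1.1 ^ p = q.1.1 → q.1.2 ^ p = q.1.2 → q ∈ N) :
    p ≤ 2 * N.card + 2 * B.natDegree ^ 3 := by
  classical
  have hβ := hB.pos
  have e1 : B.natDegree ≤ B.natDegree ^ 5 := Nat.le_self_pow (by norm_num) _
  let F : Finset K := Finset.univ.map ⟨ZMod.castHom (dvd_refl p) K, RingHom.injective _⟩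
  have hF : ∀ x ∈ F, x ^ p = x := by
    intro x hx
    obtain ⟨a, -, rfl⟩ := Finset.mem_map.1 hx
    simp only [Function.Embedding.coeFn_mk, ← map_pow, ZMod.pow_card]
  have hFc : F.card = p := by simp [F]
  let Bx : K → K[X] := fun x => B.map (evalRingHom x)
  have hm : ∀ x, (Bx x).Monic := fun x => hB.monic.map _
  have hdg : ∀ x, (Bx x).natDegree = B.natDegree := fun x => hB.monic.natDegree_map _
  let A : Finset (Pts B) := (F.biUnion fun x => (Bx x).roots.toFinset.image fun y => (x, y)).subtype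
    fun q => B.evalEval q.1 q.2 = 0
  have hA : ∀ q : Pts B, q ∈ A ↔ q.1.1 ∈ F := by
    rintro ⟨⟨x, y⟩, h⟩
    simp only [A, Finset.mem_subtype, Finset.mem_biUnion, Finset.mem_image, Multiset.mem_toFinset,
      Prod.mk.injEq, mem_roots (hm _).ne_zero]
    constructor
    · rintro ⟨a, ha, b, -, rfl, -⟩; exact ha
    · exact fun hx => ⟨x, hx, y, by rwa [IsRoot, map_evalRingHom_eval], rfl, rfl⟩
  let S0 := A.filter fun q => pt q (mkK B (derivative B)) = 0
  let S := A.filter fun q => ¬ pt q (mkK B (derivative B)) = 0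
  have h0 : S0.card ≤ B.natDegree ^ 2 :=
    card_sing p hB (by omega) _ fun q hq => (Finset.mem_filter.1 hq).2
  have hS : (F \ S0.image fun q => q.1.1).card * B.natDegree ≤ S.card := by
    rw [Finset.card_eq_sum_card_fiberwise (f := fun q : Pts B => q.1.1) (s := S) (t := F)
      (fun q hq => (hA q).1 (Finset.mem_filter.1 hq).1), ← smul_eq_mul, ← Finset.sum_const]
    refine (Finset.sum_le_sum fun x hx => ?_).trans
      (Finset.sum_le_sum_of_subset Finset.sdiff_subset)
    obtain ⟨hx1, hx2⟩ := Finset.mem_sdiff.1 hx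
    have hns : ∀ y (h : B.evalEval x y = 0), pt ⟨(x, y), h⟩ (mkK B (derivative B)) ≠ 0 :=
      fun y h h' => hx2 (Finset.mem_image.2 ⟨⟨(x, y), h⟩,
        Finset.mem_filter.2 ⟨(hA _).2 hx1, h'⟩, rfl⟩)
    have hnd : (Bx x).roots.Nodup := Multiset.nodup_iff_count_le_one.2 fun y => by
      rw [count_roots]
      by_contra hc
      obtain ⟨r1, r2⟩ := (one_lt_rootMultiplicity_iff_isRoot (hm x).ne_zero).1 (not_le.1 hc)
      rw [IsRoot, map_evalRingHom_eval] at r1
      rw [IsRoot, derivative_map, map_evalRingHom_eval] at r2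
      exact hns y r1 (by rwa [pt_mk])
    rw [← hdg x, (IsAlgClosed.splits (Bx x)).natDegree_eq_card_roots,
      ← Multiset.toFinset_card_of_nodup hnd]
    refine Finset.card_le_card_of_surjOn (fun q => q.1.2) fun y hy => ?_
    have h : B.evalEval x y = 0 := by
      have := (mem_roots (hm x).ne_zero).1 (Multiset.mem_toFinset.1 hy)
      rwa [IsRoot, map_evalRingHom_eval] at this
    exact ⟨⟨(x, y), h⟩, Finset.mem_coe.2 (Finset.mem_filter.2
      ⟨Finset.mem_filter.2 ⟨(hA _).2 hx1, hns y h⟩, rfl⟩), rfl⟩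
  have h1 : (S.filter fun q => q.1.2 ^ p = q.1.2).card ≤ N.card :=
    Finset.card_le_card fun q hq => hN q
      (hF _ ((hA q).1 (Finset.mem_filter.1 (Finset.mem_filter.1 hq).1).1))
      (Finset.mem_filter.1 hq).2
  have h2 := stepanov p hB hp (B.natDegree - 1) (Nat.sub_le _ _)
    (fun l l' => if (l : ℕ) < B.natDegree - 1 then (if (l : ℕ) = l' then 1 else 0) else
      -mkK B (∑ i ∈ Finset.Icc ((l' : ℕ) + 1) B.natDegree, X ^ (i - (l' + 1)) * C (B.coeff i)))
    (fun l l' => by
      split_ifs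
      · exact W_one _ _
      · exact zero_mem _
      · refine neg_mem (mem_W (Submodule.sum_mem _ fun i hi => ?_))
        have := Finset.mem_Icc.1 hi
        exact Fil_mono (Fil_mul (Fil_pow Fil_X _) (Fil_C (Fil_coeff hB.fil i))) (by omega))
    (S.filter fun q => ¬ q.1.2 ^ p = q.1.2)
    (fun q hq => hF _ ((hA q).1 (Finset.mem_filter.1 (Finset.mem_filter.1 hq).1).1))
    (fun q hq => (Finset.mem_filter.1 (Finset.mem_filter.1 hq).1).2)
    (fun q hq => ⟨fun l' => (q.1.2 ^ p) ^ (l' : ℕ), fun l => by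
      obtain ⟨hq1, hq2⟩ := Finset.mem_filter.1 hq
      split_ifs with hl
      · rw [Finset.sum_eq_single ⟨l, hl⟩]
        · simp
        · intro j _ hj
          rw [if_neg fun e => hj (Fin.ext e.symm)]; simp
        · simp
      · have hl' : (l : ℕ) = B.natDegree - 1 := by have := l.2; omega
        have hr : (Bx q.1.1).IsRoot q.1.2 := by rw [IsRoot, map_evalRingHom_eval]; exact q.2
        have he := mul_divByMonic_eq_iff_isRoot.2 hr
        have hz : eval (q.1.2 ^ p) (Bx q.1.1 /ₘ (X - C q.1.2)) = 0 := by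
          have := hFrob _ _ (hF _ ((hA q).1 (Finset.mem_filter.1 hq1).1)) q.2
          rw [← map_evalRingHom_eval] at this
          change eval _ (Bx q.1.1) = 0 at this
          rw [← he, eval_mul] at this
          exact (mul_eq_zero.1 this).resolve_left (by simpa [sub_eq_zero] using hq2)
        rw [eval_eq_sum_range' (n := B.natDegree - 1 + 1) (by
          rw [natDegree_divByMonic _ (monic_X_sub_C _), hdg, natDegree_X_sub_C]; omega),
          Finset.sum_range_succ, ← Fin.sum_univ_eq_sum_range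
            (fun i => (Bx q.1.1 /ₘ (X - C q.1.2)).coeff i * (q.1.2 ^ p) ^ i)] at hz
        simp only [coeff_divByMonic_X_sub_C, hdg, Nat.sub_add_cancel hβ, Finset.Icc_self,
          Finset.sum_singleton, Nat.sub_self, pow_zero, one_mul] at hz
        rw [← hdg q.1.1, (hm _).coeff_natDegree, one_mul, hdg] at hz
        rw [hl', eq_neg_of_add_eq_zero_right hz, ← Finset.sum_neg_distrib]
        refine Finset.sum_congr rfl fun j _ => ?_
        rw [map_neg, pt_mk, evalEval_finsetSum, neg_mul]
        simp only [evalEval_mul, evalEval_pow, evalEval_X, evalEval_C, Bx, coeff_map,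
          coe_evalRingHom]⟩)
  have h3 := Finset.card_filter_add_card_filter_not (s := S) fun q => q.1.2 ^ p = q.1.2
  have h4 := Finset.le_card_sdiff (S0.image fun q => q.1.1) F
  have h5 := Finset.card_image_le (s := S0) (f := fun q => q.1.1)
  have h6 : p ≤ (F \ S0.image fun q => q.1.1).card + B.natDegree ^ 2 := by omega
  have h7 := Nat.mul_le_mul_right B.natDegree h6
  obtain ⟨γ, hγ⟩ : ∃ γ, B.natDegree = γ + 1 := ⟨_, (Nat.sub_add_cancel hβ).symm⟩
  rw [show B.natDegree - 1 = γ by omega] at h2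
  rw [hγ] at h7 hS ⊢
  nlinarith

end Pool.Agent.Lib.Common.Stepanov
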